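import Mathlib

set_option autoImplicit false

namespace Pool.Agent.Results.MP_cbd4b2_an.ThreeColours

open Filter Topology

lemma exists_rep (y : UnitAddCircle) : ∃ r : ℝ, (r : UnitAddCircle) = y ∧ 0 ≤ r ∧ r < 1 ∧
    ‖y‖ = min r (1 - r) := by
  obtain ⟨z, rfl⟩ := QuotientAddGroup.mk_surjective y
  have h1 : ((Int.fract z : ℝ) : UnitAddCircle) = (z : UnitAddCircle) := by
    have : ((z - Int.fract z : ℝ) : UnitAddCircle) = 0 := by
      rw [AddCircle.coe_eq_zero_iff]
      exact ⟨⌊z⌋, by simp [Int.self_sub_fract]⟩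
    rw [AddCircle.coe_sub, sub_eq_zero] at this
    exact this.symm
  refine ⟨Int.fract z, h1, Int.fract_nonneg z, Int.fract_lt_one z, ?_⟩
  change ‖(z : UnitAddCircle)‖ = _
  rw [UnitAddCircle.norm_eq, abs_sub_round_eq_min]

lemma norm_ge {δ ρ : ℝ} (hδ : 0 < δ) (h1 : δ ≤ ρ) (h2 : ρ ≤ 1 - δ) :
    δ ≤ ‖(ρ : UnitAddCircle)‖ := by
  rw [UnitAddCircle.norm_eq, abs_sub_round_eq_min]
  have : Int.fract ρ = ρ := Int.fract_eq_self.2 ⟨by linarith, by linarith⟩
  rw [this]
  exact le_min h1 (by linarith)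

lemma int_of_coe_eq {a b : ℝ} (h : (a : UnitAddCircle) = (b : UnitAddCircle)) :
    ∃ m : ℤ, a - b = m := by
  have : ((a - b : ℝ) : UnitAddCircle) = 0 := by
    rw [AddCircle.coe_sub, h, sub_self]
  rw [AddCircle.coe_eq_zero_iff] at this
  obtain ⟨m, hm⟩ := this
  exact ⟨m, by simpa using hm.symm⟩

/-- admissible pairs `(n, F)`: `F` is a bounded real lift of `x ↦ c (x + n) - c x` commuting with
the lifts `h s`. -/
def Adm (c : ℤ → UnitAddCircle) (S : Set ℕ) (h : ℕ → ℤ → ℝ) (n : ℤ) (F : ℤ → ℝ) : Prop :=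
  (∀ x, ((F x : ℝ) : UnitAddCircle) = c (x + n) - c x) ∧ (∃ C : ℝ, ∀ x, |F x| ≤ C) ∧
    ∀ s ∈ S, ∀ x, F x + h s (x + n) = h s x + F (x + s)

lemma adm_zero (c : ℤ → UnitAddCircle) (S : Set ℕ) (h : ℕ → ℤ → ℝ) :
    Adm c S h 0 (fun _ => 0) := by
  refine ⟨fun x => by simp, ⟨0, fun x => by simp⟩, fun s _ x => by simp⟩

lemma adm_add {c : ℤ → UnitAddCircle} {S : Set ℕ} {h : ℕ → ℤ → ℝ} {n n' : ℤ} {F F' : ℤ → ℝ}
    (H : Adm c S h n F) (H' : Adm c S h n' F') :
    Adm c S h (n + n') (fun x => F' x + F (x + n')) := by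
  obtain ⟨h1, ⟨C, hC⟩, h3⟩ := H
  obtain ⟨h1', ⟨C', hC'⟩, h3'⟩ := H'
  refine ⟨fun x => ?_, ⟨C' + C, fun x => ?_⟩, fun s hs x => ?_⟩
  · simp only
    rw [AddCircle.coe_add, h1, h1']
    have : x + n' + n = x + (n + n') := by ring
    rw [this]
    abel
  · exact (abs_add_le _ _).trans (add_le_add (hC' x) (hC _))
  · have e1 := h3 s hs (x + n')
    have e2 := h3' s hs x
    have a1 : x + (n + n') = x + n' + n := by ring
    have a2 : x + n' + (s : ℤ) = x + s + n' := by ring
    simp only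
    rw [a1]
    rw [a2] at e1
    linarith

lemma adm_neg {c : ℤ → UnitAddCircle} {S : Set ℕ} {h : ℕ → ℤ → ℝ} {n : ℤ} {F : ℤ → ℝ}
    (H : Adm c S h n F) : Adm c S h (-n) (fun x => - F (x - n)) := by
  obtain ⟨h1, ⟨C, hC⟩, h3⟩ := H
  refine ⟨fun x => ?_, ⟨C, fun x => ?_⟩, fun s hs x => ?_⟩
  · simp only
    rw [AddCircle.coe_neg, h1]
    have : x - n + n = x := by ring
    rw [this]
    have : x + -n = x - n := by ring
    rw [this]
    abel
  · rw [abs_neg]; exact hC _
  · have e1 := h3 s hs (x - n)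
    have a1 : x - n + n = x := by ring
    have a2 : x - n + (s : ℤ) = x + s - n := by ring
    have a3 : x + -n = x - n := by ring
    rw [a1, a2] at e1
    simp only
    rw [a3]
    linarith

/-- iterating an admissible pair -/
lemma adm_iter {c : ℤ → UnitAddCircle} {S : Set ℕ} {h : ℕ → ℤ → ℝ} {n : ℤ} {F : ℤ → ℝ}
    (H : Adm c S h n F) (k : ℕ) :
    Adm c S h (k * n) (fun x => ∑ j ∈ Finset.range k, F (x + j * n)) := by
  induction k with
  | zero => simpa using adm_zero c S h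
  | succ k ih =>
    have := adm_add H ih
    have e1 : n + (k : ℤ) * n = ((k + 1 : ℕ) : ℤ) * n := by push_cast; ring
    rw [e1] at this
    have e2 : (fun x => ∑ j ∈ Finset.range k, F (x + j * n) + F (x + k * n)) =
        fun x => ∑ j ∈ Finset.range (k + 1), F (x + j * n) := by
      funext x
      rw [Finset.sum_range_succ]
    rw [e2] at this
    exact this

/-! ### averages along an ultrafilter -/

/-- the average of a function over an initial segment -/
noncomputable def avg (f : ℕ → ℝ) (N : ℕ) : ℝ := (∑ i ∈ Finset.range N, f i) / N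

lemma avg_mem {f : ℕ → ℝ} {a b : ℝ} (h : ∀ i, a ≤ f i ∧ f i ≤ b) {N : ℕ} (hN : 0 < N) :
    a ≤ avg f N ∧ avg f N ≤ b := by
  have hN' : (0 : ℝ) < N := by exact_mod_cast hN
  unfold avg
  constructor
  · rw [le_div_iff₀ hN']
    calc a * N = ∑ i ∈ Finset.range N, a := by simp [mul_comm]
      _ ≤ _ := Finset.sum_le_sum fun i _ => (h i).1
  · rw [div_le_iff₀ hN']
    calc ∑ i ∈ Finset.range N, f i ≤ ∑ i ∈ Finset.range N, b :=
          Finset.sum_le_sum fun i _ => (h i).2
      _ = b * N := by simp [mul_comm]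

lemma exists_lim (U : Ultrafilter ℕ) (hU : (U : Filter ℕ) ≤ atTop) {f : ℕ → ℝ} {C : ℝ}
    (h : ∀ i, |f i| ≤ C) : ∃ L, Tendsto (avg f) U (𝓝 L) := by
  have hmem : ∀ᶠ N in (U : Filter ℕ), avg f N ∈ Set.Icc (-C) C := by
    have : ∀ᶠ N in (atTop : Filter ℕ), avg f N ∈ Set.Icc (-C) C := by
      filter_upwards [eventually_gt_atTop 0] with N hN
      exact avg_mem (fun i => abs_le.1 (h i)) hN
    exact this.filter_mono hU
  obtain ⟨L, -, hL⟩ := (isCompact_Icc (a := -C) (b := C)).ultrafilter_le_nhds' (U.map (avg f)) hmem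
  exact ⟨L, hL⟩

lemma avg_shift (U : Ultrafilter ℕ) (hU : (U : Filter ℕ) ≤ atTop) {f : ℕ → ℝ} {C L : ℝ}
    (h : ∀ i, |f i| ≤ C) (hL : Tendsto (avg f) U (𝓝 L)) :
    Tendsto (avg (fun i => f (i + 1))) U (𝓝 L) := by
  have hC : 0 ≤ C := (abs_nonneg _).trans (h 0)
  have key : ∀ N, avg (fun i => f (i + 1)) N = avg f N + (f N - f 0) / N := by
    intro N
    unfold avg
    rw [← add_div]
    congr 1
    have h1 := Finset.sum_range_succ f N
    have h2 := Finset.sum_range_succ' f N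
    linarith
  have h0 : Tendsto (fun N : ℕ => (f N - f 0) / N) atTop (𝓝 0) := by
    have hb : ∀ N : ℕ, ‖(f N - f 0) / N‖ ≤ (2 * C) / N := by
      intro N
      rw [norm_div, Real.norm_natCast]
      apply div_le_div_of_nonneg_right _ (Nat.cast_nonneg N)
      rw [Real.norm_eq_abs]
      have := abs_sub (f N) (f 0)
      have h1 := h N
      have h2 := h 0
      linarith
    exact squeeze_zero_norm hb (tendsto_const_div_atTop_nhds_zero_nat (2 * C))
  have := hL.add (h0.mono_left hU)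
  rw [add_zero] at this
  exact this.congr fun N => (key N).symm

lemma avg_shift_k (U : Ultrafilter ℕ) (hU : (U : Filter ℕ) ≤ atTop) {f : ℕ → ℝ} {C L : ℝ}
    (h : ∀ i, |f i| ≤ C) (hL : Tendsto (avg f) U (𝓝 L)) (k : ℕ) :
    Tendsto (avg (fun i => f (i + k))) U (𝓝 L) := by
  induction k with
  | zero => simpa using hL
  | succ k ih =>
    have := avg_shift U hU (f := fun i => f (i + k)) (fun i => h _) ih
    have e : (fun i => f (i + 1 + k)) = fun i => f (i + (k + 1)) := by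
      funext i; congr 1; ring
    rw [e] at this
    exact this

lemma avg_sum (U : Ultrafilter ℕ) (hU : (U : Filter ℕ) ≤ atTop) {f : ℕ → ℝ} {C L : ℝ}
    (h : ∀ i, |f i| ≤ C) (hL : Tendsto (avg f) U (𝓝 L)) (k : ℕ) :
    Tendsto (avg (fun i => ∑ j ∈ Finset.range k, f (i + j))) U (𝓝 (k * L)) := by
  induction k with
  | zero =>
    have : avg (fun i => ∑ j ∈ Finset.range 0, f (i + j)) = fun _ => 0 := by
      funext N; simp [avg]
    rw [this]
    simp
  | succ k ih =>
    have h1 := ih.add (avg_shift_k U hU h hL k)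
    have e : (fun N => avg (fun i => ∑ j ∈ Finset.range k, f (i + j)) N +
        avg (fun i => f (i + k)) N) = avg (fun i => ∑ j ∈ Finset.range (k + 1), f (i + j)) := by
      funext N
      unfold avg
      rw [← add_div, ← Finset.sum_add_distrib]
      congr 1
      apply Finset.sum_congr rfl
      intro i _
      exact (Finset.sum_range_succ (fun j => f (i + j)) k).symm
    rw [e] at h1
    have e2 : (k : ℝ) * L + L = ((k + 1 : ℕ) : ℝ) * L := by push_cast; ring
    rw [e2] at h1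
    exact h1

/-- If `c : ℤ → ℝ/ℤ` moves by at least `δ > 1/4` along every `s ∈ S`, then a rotation does so. -/
lemma circular (S : Set ℕ) (δ : ℝ) (hδ : 1 / 4 < δ) (c : ℤ → UnitAddCircle)
    (hc : ∀ x : ℤ, ∀ s ∈ S, δ ≤ ‖c (x + s) - c x‖) :
    ∃ β : UnitAddCircle, ∀ s ∈ S, δ ≤ ‖s • β‖ := by
  -- the lifts
  choose rep hrep using exists_rep
  let h : ℕ → ℤ → ℝ := fun s x => rep (c (x + s) - c x)
  have hcoe : ∀ s x, ((h s x : ℝ) : UnitAddCircle) = c (x + s) - c x := fun s x => (hrep _).1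
  have hlow : ∀ s ∈ S, ∀ x, δ ≤ h s x ∧ h s x ≤ 1 - δ := by
    intro s hs x
    have h1 := hc x s hs
    rw [(hrep _).2.2.2] at h1
    have h2 := le_min_iff.1 h1
    exact ⟨h2.1, by linarith [h2.2]⟩
  have hcoc : ∀ s ∈ S, ∀ t ∈ S, ∀ x : ℤ, h t x + h s (x + t) = h s x + h t (x + s) := by
    intro s hs t ht x
    have e : ((h t x + h s (x + t) : ℝ) : UnitAddCircle) = ((h s x + h t (x + s) : ℝ)) := by
      rw [AddCircle.coe_add, AddCircle.coe_add, hcoe, hcoe, hcoe, hcoe]
      have : x + (t : ℤ) + s = x + s + t := by ring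
      rw [this]
      abel
    obtain ⟨m, hm⟩ := int_of_coe_eq e
    have b1 := hlow t ht x
    have b2 := hlow s hs (x + t)
    have b3 := hlow s hs x
    have b4 := hlow t ht (x + s)
    have hm1 : ((m : ℤ) : ℝ) < 1 := by rw [← hm]; linarith
    have hm2 : (-1 : ℝ) < ((m : ℤ) : ℝ) := by rw [← hm]; linarith
    have hm3 : m < 1 := by exact_mod_cast hm1
    have hm4 : -1 < m := by exact_mod_cast hm2
    have hm5 : m = 0 := by omega
    rw [hm5] at hm
    push_cast at hm
    linarith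
  have hadm : ∀ s ∈ S, Adm c S h s (h s) := by
    intro s hs
    refine ⟨hcoe s, ⟨1, fun x => ?_⟩, fun t ht x => ?_⟩
    · have := hlow s hs x
      rw [abs_le]
      constructor <;> linarith
    · exact (hcoc t ht s hs x)
  -- the subgroup generated by `S`
  obtain ⟨a, ha⟩ := Int.subgroup_cyclic (AddSubgroup.closure ((fun s : ℕ => (s : ℤ)) '' S))
  have hall : ∀ n ∈ AddSubgroup.closure ((fun s : ℕ => (s : ℤ)) '' S), ∃ F, Adm c S h n F := by
    intro n hn
    induction hn using AddSubgroup.closure_induction with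
    | mem x hx =>
      obtain ⟨s, hs, rfl⟩ := hx
      exact ⟨_, hadm s hs⟩
    | zero => exact ⟨_, adm_zero c S h⟩
    | add x y _ _ hx hy =>
      obtain ⟨F, hF⟩ := hx
      obtain ⟨G, hG⟩ := hy
      exact ⟨_, adm_add hF hG⟩
    | neg x _ hx =>
      obtain ⟨F, hF⟩ := hx
      exact ⟨_, adm_neg hF⟩
  obtain ⟨d, hd0, hd⟩ : ∃ d : ℤ, 0 ≤ d ∧
      AddSubgroup.closure ((fun s : ℕ => (s : ℤ)) '' S) = AddSubgroup.zmultiples d := by
    rw [← AddSubgroup.zmultiples_eq_closure] at ha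
    rcases le_total 0 a with h0 | h0
    · exact ⟨a, h0, ha⟩
    · exact ⟨-a, by linarith, by rw [ha, AddSubgroup.zmultiples_neg]⟩
  have hdmem : d ∈ AddSubgroup.closure ((fun s : ℕ => (s : ℤ)) '' S) := by
    rw [hd]; exact AddSubgroup.mem_zmultiples d
  obtain ⟨F0, hF0⟩ := hall d hdmem
  -- an ultrafilter
  let U : Ultrafilter ℕ := hyperfilter ℕ
  have hU : (U : Filter ℕ) ≤ atTop := by
    rw [← Nat.cofinite_eq_atTop]
    exact hyperfilter_le_cofinite
  obtain ⟨C, hC⟩ := hF0.2.1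
  obtain ⟨L, hL⟩ := exists_lim U hU (f := fun i : ℕ => F0 (i * d)) (fun i => hC _)
  refine ⟨((L / d : ℝ) : UnitAddCircle), fun s hs => ?_⟩
  have hs' : (s : ℤ) ∈ AddSubgroup.zmultiples d := by
    rw [← hd]
    exact AddSubgroup.subset_closure ⟨s, hs, rfl⟩
  obtain ⟨k', hk'⟩ := AddSubgroup.mem_zmultiples_iff.1 hs'
  have hspos : 0 < s := by
    rcases Nat.eq_zero_or_pos s with h0 | h0
    · exfalso
      have := hc 0 s hs
      rw [h0] at this
      simp at this
      linarith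
    · exact h0
  rw [smul_eq_mul] at hk'
  have hdpos : 0 < d := by
    rcases hd0.lt_or_eq with h0 | h0
    · exact h0
    · rw [← h0, mul_zero] at hk'
      omega
  have hkpos : 0 < k' := by
    by_contra hneg
    have : k' * d ≤ 0 := mul_nonpos_of_nonpos_of_nonneg (not_lt.1 hneg) hd0
    omega
  obtain ⟨k, rfl⟩ : ∃ k : ℕ, k' = k := ⟨k'.toNat, by omega⟩
  -- the difference of the two lifts
  have hiter := adm_iter hF0 k
  rw [hk'] at hiter
  have hsA := hadm s hs
  let D : ℤ → ℝ := fun x => h s x - ∑ j ∈ Finset.range k, F0 (x + j * d)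
  have hDper : ∀ p ∈ AddSubgroup.closure ((fun s : ℕ => (s : ℤ)) '' S), ∀ x, D (x + p) = D x := by
    intro p hp
    induction hp using AddSubgroup.closure_induction with
    | mem y hy =>
      obtain ⟨t, ht, rfl⟩ := hy
      intro x
      have e1 := hsA.2.2 t ht x
      have e2 := hiter.2.2 t ht x
      simp only [D]
      simp only at e2
      linarith
    | zero => intro x; simp
    | add y z _ _ hy hz =>
      intro x
      rw [← add_assoc, hz, hy]
    | neg y _ hy =>
      intro x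
      have := hy (x + -y)
      rw [← this]
      congr 1
      ring
  obtain ⟨m, hm⟩ : ∃ m : ℤ, D 0 = m := by
    apply int_of_coe_eq
    rw [hsA.1, hiter.1]
  have hDconst : ∀ i : ℕ, D (i * d) = m := by
    intro i
    have hmem : (i : ℤ) * d ∈ AddSubgroup.closure ((fun s : ℕ => (s : ℤ)) '' S) := by
      rw [hd, AddSubgroup.mem_zmultiples_iff]
      exact ⟨i, by rw [smul_eq_mul]⟩
    have := hDper _ hmem 0
    rw [zero_add] at this
    rw [this, hm]
  -- the limit of the averages of `h s`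
  have hlim : Tendsto (avg (fun i : ℕ => h s (i * d))) U (𝓝 (k * L + m)) := by
    have h1 := avg_sum U hU (f := fun i : ℕ => F0 (i * d)) (fun i => hC _) hL k
    have h2 : Tendsto (fun N : ℕ => avg (fun i => ∑ j ∈ Finset.range k,
        (fun i : ℕ => F0 (i * d)) (i + j)) N + m) U (𝓝 (k * L + m)) :=
      h1.add tendsto_const_nhds
    refine h2.congr' ?_
    have : ∀ᶠ N in (atTop : Filter ℕ), avg (fun i => ∑ j ∈ Finset.range k,
        (fun i : ℕ => F0 (i * d)) (i + j)) N + m = avg (fun i : ℕ => h s (i * d)) N := by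
      filter_upwards [eventually_gt_atTop 0] with N hN
      have hN' : (N : ℝ) ≠ 0 := by
        have : (0 : ℝ) < N := by exact_mod_cast hN
        exact this.ne'
      unfold avg
      rw [eq_div_iff hN', add_mul, div_mul_cancel₀ _ hN']
      have : (m : ℝ) * N = ∑ i ∈ Finset.range N, (m : ℝ) := by simp [mul_comm]
      rw [this, ← Finset.sum_add_distrib]
      apply Finset.sum_congr rfl
      intro i _
      have e := hDconst i
      simp only [D] at e
      rw [← e]
      have e2 : ∑ j ∈ Finset.range k, F0 (((i + j : ℕ) : ℤ) * d) =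
          ∑ j ∈ Finset.range k, F0 ((i : ℤ) * d + j * d) := by
        apply Finset.sum_congr rfl
        intro j _
        congr 1
        push_cast
        ring
      rw [e2]
      ring
    exact this.filter_mono hU
  have hbd : δ ≤ k * L + m ∧ k * L + m ≤ 1 - δ := by
    have hev : ∀ᶠ N in (U : Filter ℕ), δ ≤ avg (fun i : ℕ => h s (i * d)) N ∧
        avg (fun i : ℕ => h s (i * d)) N ≤ 1 - δ := by
      have : ∀ᶠ N in (atTop : Filter ℕ), δ ≤ avg (fun i : ℕ => h s (i * d)) N ∧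
          avg (fun i : ℕ => h s (i * d)) N ≤ 1 - δ := by
        filter_upwards [eventually_gt_atTop 0] with N hN
        exact avg_mem (fun i => hlow s hs _) hN
      exact this.filter_mono hU
    exact ⟨ge_of_tendsto hlim (hev.mono fun N h => h.1),
      le_of_tendsto hlim (hev.mono fun N h => h.2)⟩
  have hfin : s • ((L / d : ℝ) : UnitAddCircle) = ((k * L + m : ℝ) : UnitAddCircle) := by
    have e1 : s • ((L / d : ℝ) : UnitAddCircle) = ((s • (L / d) : ℝ) : UnitAddCircle) :=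
      (AddCircle.coe_nsmul 1).symm
    rw [e1]
    have hd' : (d : ℝ) ≠ 0 := by exact_mod_cast hdpos.ne'
    have hsr : (s : ℝ) = k * d := by
      have : ((s : ℤ) : ℝ) = ((k : ℤ) * d : ℤ) := by rw [hk']
      push_cast at this
      exact this
    have e2 : (s • (L / d) : ℝ) = k * L := by
      rw [nsmul_eq_mul, hsr]
      field_simp
    rw [e2, AddCircle.coe_add]
    have e3 : ((m : ℝ) : UnitAddCircle) = 0 := by
      rw [AddCircle.coe_eq_zero_iff]
      exact ⟨m, by simp⟩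
    rw [e3, add_zero]
  rw [hfin]
  exact norm_ge (by linarith) hbd.1 hbd.2

lemma third_lt (i j : ℕ) (hij : i < j) (hj : j < 3) :
    1 / 3 ≤ ‖((j / 3 : ℝ) : UnitAddCircle) - ((i / 3 : ℝ) : UnitAddCircle)‖ := by
  rw [← AddCircle.coe_sub]
  have h1 : (i : ℝ) + 1 ≤ j := by exact_mod_cast hij
  have h2 : (j : ℝ) ≤ 2 := by
    have : j ≤ 2 := by omega
    exact_mod_cast this
  have h3 : (0 : ℝ) ≤ i := Nat.cast_nonneg i
  exact norm_ge (by norm_num) (by linarith) (by linarith)

/-- distinct points of `{0, 1/3, 2/3}` are at distance at least `1/3` -/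
lemma third (i j : Fin 3) (hij : i ≠ j) :
    1 / 3 ≤ ‖(((i : ℕ) / 3 : ℝ) : UnitAddCircle) - (((j : ℕ) / 3 : ℝ) : UnitAddCircle)‖ := by
  rcases lt_or_gt_of_ne (fun h => hij (Fin.ext h) : (i : ℕ) ≠ (j : ℕ)) with h | h
  · rw [norm_sub_rev]
    exact third_lt i j h j.2
  · exact third_lt j i h i.2

lemma colouring_of_rotation (S : Set ℕ) (β : UnitAddCircle) (hβ : ∀ s ∈ S, 1 / 3 ≤ ‖s • β‖) :
    ∃ f : ℤ → Fin 3, ∀ x : ℤ, ∀ s ∈ S, f (x + s) ≠ f x := by
  choose rep hrep using exists_rep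
  have hfl : ∀ y : UnitAddCircle, ⌊3 * rep y⌋₊ < 3 := by
    intro y
    have h1 := (hrep y).2.1
    have h2 := (hrep y).2.2.1
    rw [Nat.floor_lt (by positivity)]
    push_cast
    linarith
  refine ⟨fun x => ⟨⌊3 * rep (x • β)⌋₊, hfl _⟩, fun x s hs heq => ?_⟩
  have e : ⌊3 * rep ((x + s) • β)⌋₊ = ⌊3 * rep (x • β)⌋₊ := congrArg Fin.val heq
  set u := rep ((x + s) • β) with hu
  set v := rep (x • β) with hv
  have u0 : 0 ≤ u := (hrep _).2.1
  have v0 : 0 ≤ v := (hrep _).2.1
  have u1 := Nat.floor_le (show 0 ≤ 3 * u by positivity)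
  have u2 := Nat.lt_floor_add_one (3 * u)
  have v1 := Nat.floor_le (show 0 ≤ 3 * v by positivity)
  have v2 := Nat.lt_floor_add_one (3 * v)
  rw [e] at u1 u2
  have hd : |u - v| < 1 / 3 := by
    rw [abs_lt]
    constructor <;> linarith
  have hs' := hβ s hs
  have hsub : s • β = ((u - v : ℝ) : UnitAddCircle) := by
    rw [AddCircle.coe_sub, hu, hv, (hrep _).1, (hrep _).1, add_smul, natCast_zsmul]
    abel
  rw [hsub, UnitAddCircle.norm_eq] at hs'
  have h3 : |u - v - round (u - v)| ≤ |u - v - ((0 : ℤ) : ℝ)| := round_le (u - v) 0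
  simp only [Int.cast_zero, sub_zero] at h3
  linarith

/-- (1) For `δ > 1/4`, a map `c : ℤ → ℝ/ℤ` with `‖c (x + s) - c x‖ ≥ δ` for all `x ∈ ℤ`, `s ∈ S`
exists iff a rotation `β` has `‖s β‖ ≥ δ` for all `s ∈ S`.
(2) (the case `δ = 1/3`) `ℤ` has a 3-colouring without two equally coloured integers differing by
an element of `S` iff some `β` has `‖s β‖ ≥ 1/3` for all `s ∈ S`. -/
theorem result (S : Set ℕ) :
    (∀ δ : ℝ, 1 / 4 < δ →
      ((∃ c : ℤ → UnitAddCircle, ∀ x : ℤ, ∀ s ∈ S, δ ≤ ‖c (x + s) - c x‖) ↔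
        ∃ β : UnitAddCircle, ∀ s ∈ S, δ ≤ ‖s • β‖)) ∧
    ((∃ f : ℤ → Fin 3, ∀ x : ℤ, ∀ s ∈ S, f (x + s) ≠ f x) ↔
      ∃ β : UnitAddCircle, ∀ s ∈ S, 1 / 3 ≤ ‖s • β‖) := by
  refine ⟨fun δ hδ => ⟨?_, ?_⟩, ?_, ?_⟩
  · rintro ⟨c, hc⟩
    exact circular S δ hδ c hc
  · rintro ⟨β, hβ⟩
    refine ⟨fun x => x • β, fun x s hs => ?_⟩
    have : (x + s) • β - x • β = s • β := by
      rw [add_smul, natCast_zsmul]
      abel
    rw [this]
    exact hβ s hs
  · rintro ⟨f, hf⟩
    exact circular S (1 / 3) (by norm_num) (fun x => (((f x : ℕ) / 3 : ℝ) : UnitAddCircle))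
      (fun x s hs => third _ _ (hf x s hs))
  · rintro ⟨β, hβ⟩
    exact colouring_of_rotation S β hβ

end Pool.Agent.Results.MP_cbd4b2_an.ThreeColours
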