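import Mathlib
import Pool.Agent.Lib.MP_cbd4b2_an.PwFwd

set_option autoImplicit false

namespace Pool.Agent.Results.MP_cbd4b2_an.LargeGirthPatterns

open Pool.Agent.SqFree Pool.Agent.Results.MP_cbd4b2_an.ThreeColours SimpleGraph

universe u

lemma closed_adj {V : Type u} (H : SimpleGraph V) {m : ℕ} [NeZero m] {v : V} (p : H.Walk v v)
    (hp : p.length = m) (j : ZMod m) :
    H.Adj (p.getVert j.val) (p.getVert (j + 1).val) := by
  have hj : j.val < m := ZMod.val_lt j
  by_cases h1 : j.val + 1 < m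
  · have e : (j + 1).val = j.val + 1 := by
      have hm1 : 1 < m := by omega
      have : Fact (1 < m) := ⟨hm1⟩
      rw [ZMod.val_add, ZMod.val_one, Nat.mod_eq_of_lt h1]
    rw [e]
    exact p.adj_getVert_succ (by omega)
  · have h2 : j.val + 1 = m := by omega
    have e : j + 1 = 0 := by
      have : ((j.val + 1 : ℕ) : ZMod m) = 0 := by rw [h2]; simp
      rw [Nat.cast_add, ZMod.natCast_zmod_val, Nat.cast_one] at this
      exact this
    have h3 := p.adj_getVert_succ (i := j.val) (by omega)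
    have h4 : p.getVert (j.val + 1) = v := p.getVert_of_length_le (by omega)
    rw [e, ZMod.val_zero, p.getVert_zero]
    rw [h4] at h3
    exact h3

lemma floor_range {k ρ : ℤ} {a t : ℝ} (h1 : (k : ℝ) ≤ t) (h2 : t ≤ k + ρ) :
    k ≤ ⌊a + t⌋ - ⌊a⌋ ∧ ⌊a + t⌋ - ⌊a⌋ ≤ k + ρ := by
  constructor
  · have : ⌊a + (k : ℝ)⌋ ≤ ⌊a + t⌋ := Int.floor_le_floor (by linarith)
    rw [Int.floor_add_intCast] at this
    linarith
  · have : ⌊a + t⌋ ≤ ⌊a + ((k + ρ : ℤ) : ℝ)⌋ := Int.floor_le_floor (by push_cast; linarith)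
    rw [Int.floor_add_intCast] at this
    linarith

/-- walks of a given length along a closed walk -/
lemma walk_along {V : Type u} (H : SimpleGraph V) {m : ℕ} (w : ZMod m → V)
    (hw : ∀ i, H.Adj (w i) (w (i + 1))) : ∀ (n : ℕ) (j : ℤ), |j| ≤ n → Even (j - n) →
      ∀ i : ZMod m, ∃ p : H.Walk (w i) (w (i + j)), p.length = n := by
  intro n
  induction n with
  | zero =>
    intro j hj _ i
    have h0 : j = 0 := by
      have : |j| ≤ 0 := by simpa using hj
      exact abs_nonpos_iff.1 this
    subst h0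
    refine ⟨(Walk.nil : H.Walk (w i) (w i)).copy rfl (by simp), by simp⟩
  | succ n ih =>
    intro j hj hev i
    push_cast at hj hev
    by_cases h0 : 0 ≤ j
    · have hj' : |j - 1| ≤ n := by
        rw [abs_of_nonneg h0] at hj
        rcases eq_or_lt_of_le h0 with h | h
        · subst h
          obtain ⟨r, hr⟩ := hev
          have : (1 : ℤ) ≤ n := by omega
          simpa using this
        · rw [abs_of_nonneg (by omega)]; omega
      obtain ⟨p, hp⟩ := ih (j - 1) hj' (by
        have : j - 1 - (n : ℤ) = j - (n + 1) := by ring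
        rw [this]; exact hev) (i + 1)
      refine ⟨(Walk.cons (hw i) p).copy rfl (by congr 1; push_cast; ring), ?_⟩
      rw [Walk.length_copy, Walk.length_cons, hp]
    · have hj' : |j + 1| ≤ n := by
        rw [abs_of_neg (by omega)] at hj
        rw [abs_of_nonpos (by omega)]; omega
      obtain ⟨p, hp⟩ := ih (j + 1) hj' (by
        have : j + 1 - (n : ℤ) = (j - (n + 1)) + 2 := by ring
        rw [this]; exact hev.add (by decide)) (i - 1)
      have ha : H.Adj (w i) (w (i - 1)) := by
        have := hw (i - 1)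
        rw [sub_add_cancel] at this
        exact this.symm
      refine ⟨(Walk.cons ha p).copy rfl (by congr 1; push_cast; ring), ?_⟩
      rw [Walk.length_copy, Walk.length_cons, hp]

lemma backward {V : Type u} (H : SimpleGraph V) {ρ m : ℕ} (hρ : Odd ρ) (hodd : Odd m)
    (hmρ : 2 * ρ < m) {v : V}
    (p : H.Walk v v) (hp : p.length = m) (S : Set ℕ) (β : UnitAddCircle)
    (hβ : ∀ s ∈ S, 1 / 2 - ρ / (2 * m : ℝ) ≤ ‖s • β‖) :
    ∃ f : ℤ → V, ∀ x : ℤ, ∀ s ∈ S, ∃ q : H.Walk (f x) (f (x + s)), q.length = ρ := by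
  obtain ⟨k, hk⟩ : ∃ k : ℕ, m = 2 * k + ρ := by
    obtain ⟨a, ha⟩ := hρ
    obtain ⟨b, hb⟩ := hodd
    exact ⟨b - a, by omega⟩
  have : NeZero m := ⟨by omega⟩
  have hm0 : (0 : ℝ) < m := by exact_mod_cast (by omega : 0 < m)
  have hmk : (m : ℝ) = 2 * k + ρ := by rw [hk]; push_cast; ring
  choose r hr0 hr1 hr2 hr3 using fun x : ℤ => exists_rep (x • β)
  let U : ℤ → ZMod m := fun x => -2 * ((⌊m * r x⌋ : ℤ) : ZMod m)
  have cast1 : ((m : ℕ) : ZMod m) = 0 := ZMod.natCast_self m
  have hρ' : Odd (ρ : ℤ) := by exact_mod_cast hρ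
  have hU : ∀ x, ∀ s ∈ S, ∃ j : ℤ, Odd j ∧ |j| ≤ ρ ∧ U (x + s) = U x + j := by
    intro x s hs
    have hd : ((r (x + s) - r x : ℝ) : UnitAddCircle) = s • β := by
      rw [AddCircle.coe_sub, hr0, hr0, add_smul, natCast_zsmul]
      abel
    have hn := hβ s hs
    rw [← hd, UnitAddCircle.norm_eq] at hn
    have hkm : 1 / 2 - ρ / (2 * (m : ℝ)) = k / m := by
      have : (ρ : ℝ) = m - 2 * k := by linarith
      rw [this]; field_simp; ring
    rw [hkm] at hn
    have hd1 : |r (x + s) - r x| < 1 := by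
      rw [abs_lt]; constructor <;> linarith [hr1 x, hr2 x, hr1 (x + s), hr2 (x + s)]
    have key : ∀ d : ℝ, 0 ≤ d → d < 1 → (k : ℝ) / m ≤ |d - round d| →
        (k : ℝ) ≤ m * d ∧ m * d ≤ k + ρ := by
      intro d h0 h1 h2
      rw [abs_sub_round_eq_min, Int.fract_eq_self.2 ⟨h0, h1⟩] at h2
      have h3 := (le_min_iff.1 h2).1
      have h4 := (le_min_iff.1 h2).2
      rw [div_le_iff₀ hm0] at h3 h4
      constructor
      · linarith
      · nlinarith
    rcases le_total 0 (r (x + s) - r x) with hsgn | hsgn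
    · obtain ⟨h1, h2⟩ := key _ hsgn (by rwa [abs_of_nonneg hsgn] at hd1) hn
      have e : m * r (x + s) = m * r x + m * (r (x + s) - r x) := by ring
      obtain ⟨h3, h4⟩ := floor_range (k := (k : ℤ)) (ρ := (ρ : ℤ)) (a := m * r x)
        (t := m * (r (x + s) - r x)) (by push_cast; exact h1) (by push_cast; exact h2)
      rw [← e] at h3 h4
      refine ⟨m - 2 * (⌊m * r (x + s)⌋ - ⌊m * r x⌋), ?_, ?_, ?_⟩
      · have : (Odd (m : ℤ)) := by exact_mod_cast hodd
        exact this.sub_even (even_two_mul _)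
      · rw [abs_le]; constructor <;> omega
      · simp only [U]
        push_cast
        rw [cast1]
        ring
    · have hn' : (k : ℝ) / m ≤ |(r x - r (x + s)) - round (r x - r (x + s))| := by
        have : ‖((r x - r (x + s) : ℝ) : UnitAddCircle)‖ =
            ‖((r (x + s) - r x : ℝ) : UnitAddCircle)‖ := by
          rw [AddCircle.coe_sub, AddCircle.coe_sub, norm_sub_rev]
        rw [UnitAddCircle.norm_eq, UnitAddCircle.norm_eq] at this
        rw [this]
        exact hn
      have hsgn' : 0 ≤ r x - r (x + s) := by linarith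
      obtain ⟨h1, h2⟩ := key _ hsgn' (by rw [abs_of_nonpos hsgn] at hd1; linarith) hn'
      have e : m * r x = m * r (x + s) + m * (r x - r (x + s)) := by ring
      obtain ⟨h3, h4⟩ := floor_range (k := (k : ℤ)) (ρ := (ρ : ℤ)) (a := m * r (x + s))
        (t := m * (r x - r (x + s))) (by push_cast; exact h1) (by push_cast; exact h2)
      rw [← e] at h3 h4
      refine ⟨2 * (⌊m * r x⌋ - ⌊m * r (x + s)⌋) - m, ?_, ?_, ?_⟩
      · have : (Odd (m : ℤ)) := by exact_mod_cast hodd
        exact (even_two_mul _).sub_odd this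
      · rw [abs_le]; constructor <;> omega
      · simp only [U]
        push_cast
        rw [cast1]
        ring
  refine ⟨fun x => p.getVert (U x).val, fun x s hs => ?_⟩
  obtain ⟨j, hj1, hj2, hj3⟩ := hU x s hs
  simp only
  rw [hj3]
  exact walk_along H (fun i : ZMod m => p.getVert i.val) (closed_adj H p hp) ρ j hj2
    (hj1.sub_odd hρ') (U x)

lemma odd_closed_three {V : Type u} (H : SimpleGraph V) (v : V) (p : H.Walk v v)
    (hp : Odd p.length) : 3 ≤ p.length := by
  by_contra hlt
  have h1 : p.length = 1 := by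
    obtain ⟨k, hk⟩ := hp
    omega
  exact (Walk.adj_of_length_eq_one h1).ne rfl

lemma no_even_cycle_four {V : Type u} (H : SimpleGraph V)
    (hC4 : ∀ a b c d : V, H.Adj a b → H.Adj b c → H.Adj c d → H.Adj d a → a = c ∨ b = d)
    (v : V) (p : H.Walk v v) (hc : p.IsCycle) (hev : Even p.length) : 4 * 1 < p.length := by
  by_contra hlt
  have hthree := hc.three_le_length
  have h4 : p.length = 4 := by
    obtain ⟨k, hk⟩ := hev
    omega
  have hnd := hc.support_nodup
  cases p with
  | nil => simp at h4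
  | cons h1 p =>
    cases p with
    | nil => simp at h4
    | cons h2 p =>
      cases p with
      | nil => simp at h4
      | cons h3 p =>
        cases p with
        | nil => simp at h4
        | cons h4' p =>
          cases p with
          | nil =>
            simp only [Walk.support_cons, Walk.support_nil, List.tail_cons, List.nodup_cons,
              List.mem_cons, List.not_mem_nil, or_false, not_or] at hnd
            rcases hC4 _ _ _ _ h1 h2 h3 h4' with h | h
            · exact hnd.2.1.2 h.symm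
            · exact hnd.1.2.1 h
          | cons h5 p =>
            simp only [Walk.length_cons] at h4
            omega

/-- **Katznelson's question for patterns of large girth.** -/
theorem result :
    (∀ (V : Type u) (f : ℤ → V) (S : Set ℕ),
      (∀ (d : ℕ) (α : Fin d → ℝ) (ε : ℝ), 0 < ε →
        ∃ n ∈ S, ∀ i : Fin d, |(n : ℝ) * α i - ((round ((n : ℝ) * α i) : ℤ) : ℝ)| < ε) →
      (∃ x : ℤ, ∃ s ∈ S, f (x + s) = f x) ∨
      (∃ a b c d : V, a ≠ c ∧ b ≠ d ∧
        ∀ e ∈ [(a, b), (b, c), (c, d), (d, a)], ∃ x : ℤ, ∃ s ∈ S,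
          (f x, f (x + s)) = e ∨ (f (x + s), f x) = e)) ∧
    (∀ (V : Type u) (H : SimpleGraph V) (ρ m : ℕ), Odd ρ →
      IsLeast {k : ℕ | Odd k ∧ ∃ (v : V) (p : H.Walk v v), p.length = k} m → 2 * ρ < m →
      (∀ (v : V) (p : H.Walk v v), p.IsCycle → Even p.length → 4 * ρ < p.length) →
      ∀ S : Set ℕ,
        ((∃ f : ℤ → V, ∀ x : ℤ, ∀ s ∈ S, ∃ p : H.Walk (f x) (f (x + s)), p.length = ρ) ↔
          ∃ β : UnitAddCircle, ∀ s ∈ S, 1 / 2 - ρ / (2 * m : ℝ) ≤ ‖s • β‖)) := by
  refine ⟨?_, ?_⟩
  · intro V f S hS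
    by_contra hcon
    push Not at hcon
    obtain ⟨h1, h2⟩ := hcon
    let H : SimpleGraph V :=
      { Adj := fun u v => ∃ x : ℤ, ∃ s ∈ S, (f x, f (x + s)) = (u, v) ∨ (f (x + s), f x) = (u, v)
        symm := ⟨by
          rintro u v ⟨x, s, hs, h | h⟩
          · refine ⟨x, s, hs, Or.inr ?_⟩
            simp only [Prod.mk.injEq] at h ⊢
            exact ⟨h.2, h.1⟩
          · refine ⟨x, s, hs, Or.inl ?_⟩
            simp only [Prod.mk.injEq] at h ⊢
            exact ⟨h.2, h.1⟩⟩
        loopless := ⟨by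
          rintro u ⟨x, s, hs, h | h⟩
          · simp only [Prod.mk.injEq] at h
            exact h1 x s hs (h.2.trans h.1.symm)
          · simp only [Prod.mk.injEq] at h
            exact h1 x s hs (h.1.trans h.2.symm)⟩ }
    have hC4 : ∀ a b d e : V, H.Adj a b → H.Adj b d → H.Adj d e → H.Adj e a →
        a = d ∨ b = e := by
      intro a b d e hab hbd hde hea
      by_contra hne
      push Not at hne
      obtain ⟨e', he', hno⟩ := h2 a b d e hne.1 hne.2
      simp only [List.mem_cons, List.not_mem_nil, or_false] at he'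
      have : ∀ u v, e' = (u, v) → ¬ H.Adj u v := by
        rintro u v rfl ⟨x, s, hs, h⟩
        rcases h with h | h
        · exact (hno x s hs).1 h
        · exact (hno x s hs).2 h
      rcases he' with h | h | h | h
      · exact this _ _ h hab
      · exact this _ _ h hbd
      · exact this _ _ h hde
      · exact this _ _ h hea
    obtain ⟨β, hβ⟩ := forward H 1 odd_one (no_even_cycle_four H hC4) 3 (by norm_num)
      (fun v p hp => odd_closed_three H v p hp) S f
      (fun x s hs => ⟨Walk.cons (show H.Adj (f x) (f (x + s)) from ⟨x, s, hs, Or.inl rfl⟩)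
        Walk.nil, by simp⟩)
    obtain ⟨b, rfl⟩ := QuotientAddGroup.mk_surjective β
    obtain ⟨n, hn, hlt⟩ := hS 1 (fun _ => b) (1 / 3) (by norm_num)
    have h3 := hβ n hn
    have h4 : n • (QuotientAddGroup.mk b : UnitAddCircle) = (((n : ℝ) * b : ℝ) :
        UnitAddCircle) := by
      rw [← nsmul_eq_mul]; rfl
    rw [h4, UnitAddCircle.norm_eq] at h3
    have h5 := hlt 0
    norm_num at h3
    linarith
  · intro V H ρ m hρ hm hmρ hE S
    obtain ⟨⟨hodd, v, p, hp⟩, hleast⟩ := hm
    constructor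
    · rintro ⟨f, hf⟩
      exact forward H ρ hρ hE m hmρ (fun v q hq => hleast ⟨hq, v, q, rfl⟩) S f hf
    · rintro ⟨β, hβ⟩
      exact backward H hρ hodd hmρ p hp S β hβ

end Pool.Agent.Results.MP_cbd4b2_an.LargeGirthPatterns
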